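import Pool.Agent.H38.Spa.Math
import Pool.Agent.H38.ER.Big

/-!
The cut-off algorithm: implementation in polynomial time.
-/

set_option autoImplicit false

namespace Pool.Agent.H38.Spa

open Pool.Agent.H38.NP Pool.Agent.H38.ER Finset

instance : Dec Bin := ⟨fun x => ⟨bval x.val⟩, pt_ofBits (PT.bval PT.id'), fun x => by
  simp [raw, enc, bval_bits]⟩

abbrev St := List ℕ × List ℕ
abbrev Mt := List (ℕ × ℕ)

def gu (l : List ℕ) (p : ℕ) : ℕ := l.getD p 0
def lt' (b : Bin) (n : ℕ) : Bool := !decide ((Bin.mk n).val ≤ b.val)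
def gt' (b : Bin) (n : ℕ) : Bool := !decide (b.val ≤ (Bin.mk n).val)
def cp (M : Mt) (p : ℕ) : ℕ := M.countP fun e => decide (e.2 = p)

variable (I : Inst)

def cl (M : Mt) (k : ℕ) : ℕ := M.countP fun e => decide (lec I e.2 = k)
def overP (M : Mt) : Bool := (List.range I.2.1.length).any fun p => lt' (cap I p) (cp M p)
def overL (M : Mt) : Bool := (List.range I.2.2.length).any fun k => lt' (dcap I k) (cl I M k)
def bad (M : Mt) (k : ℕ) : Bool := lt' (dcap I k) (cl I M k) || (!overL I M &&
  (List.range I.2.1.length).any fun p => decide (lec I p = k) && gt' (quo I p) (cp M p))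
def stepM (M : Mt) (S : St) : St :=
  ((List.range I.2.1.length).map fun p => bif lt' (cap I p) (cp M p) then gu S.1 p - 1 else gu S.1 p,
   (List.range I.2.2.length).map fun k => bif !overP I M && bad I M k then gu S.2 k - 1 else gu S.2 k)
def cs (S : St) : Mt := cur I (gu S.1) (gu S.2)
def step (S : St) : St := stepM I (cs I S) S
def done (M : Mt) : Bool := !overP I M && (List.range I.2.2.length).all fun k => !bad I M k
def out (M : Mt) (S : St) : Option Mt := bif done I M && (List.range I.2.2.length).all fun k =>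
  decide (gu S.2 k = NN I) || !gt' (dcap I k) (cl I M k) then some M else none
def init : St := (List.replicate I.2.1.length (NN I), List.replicate I.2.2.length (NN I))
def run : St := (step I)^[(I.2.1.length + I.2.2.length) * NN I + 1] (init I)
def alg : Option Mt := out I (cs I (run I)) (run I)

section
variable {α : Type} [Enc α] {I : α → Inst} {M : α → Mt} {a b : α → ℕ} {x : α → Bin} {S : α → St}
@[fun_prop] theorem pt_gu {l : α → List ℕ} (hl : PT l) (ha : PT a) : PT fun z => gu (l z) (a z) := by
  unfold gu; fun_prop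
@[fun_prop] theorem pt_lt' (hx : PT x) (ha : PT a) : PT fun z => lt' (x z) (a z) :=
  (pt_ble (pt_bin ha) hx).not
@[fun_prop] theorem pt_gt' (hx : PT x) (ha : PT a) : PT fun z => gt' (x z) (a z) :=
  (pt_ble hx (pt_bin ha)).not
@[fun_prop] theorem pt_cp (hM : PT M) (ha : PT a) : PT fun z => cp (M z) (a z) := by
  unfold cp; fun_prop
@[fun_prop] theorem pt_pref (hI : PT I) (ha : PT a) : PT fun z => pref (I z) (a z) := by
  unfold pref; fun_prop
@[fun_prop] theorem pt_lec (hI : PT I) (ha : PT a) : PT fun z => lec (I z) (a z) := by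
  unfold lec; fun_prop
@[fun_prop] theorem pt_cap (hI : PT I) (ha : PT a) : PT fun z => cap (I z) (a z) := by
  unfold cap; fun_prop
@[fun_prop] theorem pt_quo (hI : PT I) (ha : PT a) : PT fun z => quo (I z) (a z) := by
  unfold quo; fun_prop
@[fun_prop] theorem pt_rk (hI : PT I) (ha : PT a) : PT fun z => rk (I z) (a z) := by
  unfold rk; fun_prop
@[fun_prop] theorem pt_dcap (hI : PT I) (ha : PT a) : PT fun z => dcap (I z) (a z) := by
  unfold dcap; fun_prop
@[fun_prop] theorem pt_r (hI : PT I) (ha : PT a) (hb : PT b) : PT fun z => r (I z) (a z) (b z) := by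
  unfold r; fun_prop
@[fun_prop] theorem pt_NN (hI : PT I) : PT fun z => NN (I z) := by unfold NN; fun_prop
@[fun_prop] theorem pt_cl (hI : PT I) (hM : PT M) (ha : PT a) : PT fun z => cl (I z) (M z) (a z) := by
  unfold cl; fun_prop
@[fun_prop] theorem pt_overP (hI : PT I) (hM : PT M) : PT fun z => overP (I z) (M z) := by
  unfold overP; fun_prop
@[fun_prop] theorem pt_overL (hI : PT I) (hM : PT M) : PT fun z => overL (I z) (M z) := by
  unfold overL; fun_prop
@[fun_prop] theorem pt_bad (hI : PT I) (hM : PT M) (ha : PT a) :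
    PT fun z => bad (I z) (M z) (a z) := by unfold bad; fun_prop
@[fun_prop] theorem pt_stepM (hI : PT I) (hM : PT M) (hS : PT S) :
    PT fun z => stepM (I z) (M z) (S z) := by unfold stepM; fun_prop
@[fun_prop] theorem pt_ok (hI : PT I) (hS : PT S) (ha : PT a) (hb : PT b) :
    PT fun z => ok (I z) (gu (S z).1) (gu (S z).2) (a z) (b z) := by unfold ok; fun_prop
@[fun_prop] theorem pt_cs (hI : PT I) (hS : PT S) : PT fun z => cs (I z) (S z) := by
  unfold cs cur; fun_prop
@[fun_prop] theorem pt_out (hI : PT I) (hM : PT M) (hS : PT S) :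
    PT fun z => out (I z) (M z) (S z) := by unfold out done; fun_prop
end

theorem gu_map {n p : ℕ} (f : ℕ → ℕ) (h : p < n) : gu ((List.range n).map f) p = f p := by
  simp [gu, List.getD_eq_getElem?_getD, h]

theorem gu_le {l : List ℕ} {N : ℕ} (h : ∀ x ∈ l, x ≤ N) (p : ℕ) : gu l p ≤ N := by
  rw [gu, List.getD_eq_getElem?_getD]
  cases e : l[p]? with
  | none => simp
  | some x => exact h x (List.mem_of_getElem? e)

theorem pt_run : PT run := by
  refine PT.iterate (step := step) (by unfold step; fun_prop) (by fun_prop) (by unfold init; fun_prop)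
    (B := fun I => 2 * (I.2.1.length * (2 * NN I + 1)) + 1 + I.2.2.length * (2 * NN I + 1))
    (PT.nat_pb (by fun_prop)) fun I i _ => ?_
  have key : ∀ i, ((step I)^[i] (init I)).1.length = I.2.1.length ∧
      ((step I)^[i] (init I)).2.length = I.2.2.length ∧ (∀ x ∈ ((step I)^[i] (init I)).1, x ≤ NN I) ∧
      ∀ x ∈ ((step I)^[i] (init I)).2, x ≤ NN I := by
    intro i
    induction i with
    | zero => simp +contextual [init]
    | succ i ih =>
      rw [Function.iterate_succ_apply']
      generalize (step I)^[i] (init I) = S at ih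
      simp only [step, stepM, List.length_map, List.length_range, List.forall_mem_map, true_and]
      constructor <;> intro p _
      · have := gu_le ih.2.2.1 p; cases lt' _ _ <;> simp <;> omega
      · have := gu_le ih.2.2.2 p; cases (_ && _) <;> simp <;> omega
  obtain ⟨a, b, c, d⟩ := key i
  have e := sz_le_of_forall (B := NN I) fun x hx => (sz_nat x).trans_le (c x hx)
  have f := sz_le_of_forall (B := NN I) fun x hx => (sz_nat x).trans_le (d x hx)
  rw [sz_prod]
  rw [a] at e; rw [b] at f; omega

theorem pt_alg : PT alg := pt_out PT.id' (pt_cs PT.id' pt_run) pt_run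

variable {I}

theorem cp_eq (S : St) (p : ℕ) : cp (cs I S) p = #(Mp (cs I S).toFinset p) := by
  rw [cp, cs, List.countP_eq_length_filter, ← List.toFinset_card_of_nodup (cur_nodup.filter _),
    List.toFinset_filter, Mp]; simp

theorem cl_eq (S : St) (k : ℕ) : cl I (cs I S) k = #(Ml I (cs I S).toFinset k) := by
  rw [cl, cs, List.countP_eq_length_filter, ← List.toFinset_card_of_nodup (cur_nodup.filter _),
    List.toFinset_filter, Ml]; simp

theorem overP_iff (S : St) : overP I (cs I S) = false ↔
    ∀ p < I.2.1.length, #(Mp (cs I S).toFinset p) ≤ (cap I p).val := by simp [overP, lt', cp_eq]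

theorem bad_iff (S : St) (k : ℕ) : bad I (cs I S) k = true ↔
    (dcap I k).val < #(Ml I (cs I S).toFinset k) ∨
      ((∀ k < I.2.2.length, #(Ml I (cs I S).toFinset k) ≤ (dcap I k).val) ∧
        ∃ p < I.2.1.length, lec I p = k ∧ #(Mp (cs I S).toFinset p) < (quo I p).val) := by
  simp [bad, overL, lt', gt', cp_eq, cl_eq]

theorem done_iff (hI : Valid I) (S : St) (h : done I (cs I S) = true) :
    (∀ p < I.2.1.length, #(Mp (cs I S).toFinset p) ≤ (cap I p).val) ∧
    (∀ k < I.2.2.length, #(Ml I (cs I S).toFinset k) ≤ (dcap I k).val) ∧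
    ∀ p < I.2.1.length, (quo I p).val ≤ #(Mp (cs I S).toFinset p) := by
  simp only [done, Bool.and_eq_true, Bool.not_eq_true', List.all_eq_true, List.mem_range,
    ← Bool.not_eq_true, bad_iff, not_or, not_lt] at h
  have := fun k hk => (h.2 k hk).1
  exact ⟨(overP_iff S).1 (by simpa using h.1), this, fun p hp => not_lt.1 fun c => (h.2 _ (hI.lec_lt p hp)).2 ⟨this, p, hp, rfl, c⟩⟩

theorem step_u (S : St) {p : ℕ} (hp : p < I.2.1.length) : gu (step I S).1 p =
    if (cap I p).val < #(Mp (cs I S).toFinset p) then gu S.1 p - 1 else gu S.1 p := by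
  rw [step, stepM, gu_map _ hp, lt', cp_eq]
  split_ifs with h <;> simp [h, not_lt.1, not_le.2]

theorem step_v (S : St) {k : ℕ} (hk : k < I.2.2.length) : gu (step I S).2 k =
    if overP I (cs I S) = false ∧ bad I (cs I S) k = true then gu S.2 k - 1 else gu S.2 k := by
  rw [step, stepM, gu_map _ hk]
  cases overP I (cs I S) <;> cases bad I (cs I S) k <;> simp

theorem invP_step (hI : Valid I) {S : St} (h : InvP I (gu S.1) (gu S.2)) :
    InvP I (gu (step I S).1) (gu (step I S).2) := by
  cases e : overP I (cs I S)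
  · refine invP_v hI h (fun k hk => ?_) fun p hp => ?_
    · rw [step_v S hk]; split_ifs <;> omega
    · rw [step_u S hp, if_neg (not_lt.2 ((overP_iff S).1 e p hp))]
  · refine invP_u hI h (fun k hk => by simp [step_v S hk, e]) fun p hp => ?_
    rw [step_u S hp]
    split_ifs with c
    exacts [Or.inr ⟨rfl, c⟩, Or.inl rfl]

def pot (I : Inst) (S : St) : ℕ := ∑ p ∈ range I.2.1.length, gu S.1 p + ∑ k ∈ range I.2.2.length, gu S.2 k

def Inv (I : Inst) (G : Finset (ℕ × ℕ)) (S : St) : Prop :=
  (∀ e ∈ G, ok I (gu S.1) (gu S.2) e.1 e.2 = true) ∧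
    ∀ k < I.2.2.length, gu S.2 k = NN I ∨ #(Ml I G k) = (dcap I k).val

theorem cur_congr (hI : Valid I) {u v u' v' : ℕ → ℕ} (hu : ∀ p < I.2.1.length, u' p = u p)
    (hv : ∀ k < I.2.2.length, v' k = v k) : cur I u' v' = cur I u v := by
  unfold cur
  congr 1; funext s; congr 2
  have : ∀ p ∈ pref I s, ok I u' v' s p = ok I u v s p := fun p hp => by
    rw [ok, ok, hu p (hI.pref_lt _ _ hp), hv _ (hI.lec_lt p (hI.pref_lt _ _ hp))]
  refine Option.ext fun p => ?_
  rw [find_iff, find_iff]
  exact and_congr_right fun hp => and_congr (by rw [this p hp])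
    (forall₂_congr fun q hq => by rw [this q hq])

theorem inv_step (hI : Valid I) {G : Finset (ℕ × ℕ)} (hG : Good I G) {S : St} (h : Inv I G S) :
    Inv I G (step I S) ∧ (done I (cs I S) = true → done I (cs I (step I S)) = true) ∧
      (done I (cs I S) = false → pot I (step I S) < pot I S) := by
  have r2 := fun h2 k => rule2 (k := k) hI hG h.1 h2
  refine ⟨⟨fun e he => ?_, fun k hk => ?_⟩, fun d => ?_, fun d => ?_⟩
  · have p1 := hI.pref_lt _ _ (hG.1.acc e he)
    have := h.1 e he
    simp only [ok, Bool.and_eq_true, decide_eq_true_eq, step_u S p1, step_v S (hI.lec_lt _ p1)]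
      at this ⊢
    constructor <;> split_ifs with c
    · have := rule1 hI hG h.1 c he; omega
    · exact this.1
    · have := (r2 ((overP_iff S).1 c.1) _ (hI.lec_lt _ p1) ((bad_iff S _).1 c.2)).2.2 e he rfl
      omega
    · exact this.2
  · rw [step_v S hk]
    split_ifs with c
    · exact Or.inr (r2 ((overP_iff S).1 c.1) _ hk ((bad_iff S _).1 c.2)).1
    · exact h.2 k hk
  · rwa [show cs I (step I S) = cs I S from cur_congr hI (fun p hp => by
      rw [step_u S hp, if_neg (not_lt.2 ((done_iff hI S d).1 p hp))]) fun k hk => by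
        rw [step_v S hk, if_neg]
        simp only [done, Bool.and_eq_true, List.all_eq_true, List.mem_range] at d
        have := d.2 k hk
        simp_all]
  · have a : ∀ p ∈ range I.2.1.length, gu (step I S).1 p ≤ gu S.1 p := fun p hp => by
      rw [step_u S (mem_range.1 hp)]; split_ifs <;> omega
    have b : ∀ k ∈ range I.2.2.length, gu (step I S).2 k ≤ gu S.2 k := fun k hk => by
      rw [step_v S (mem_range.1 hk)]; split_ifs <;> omega
    cases e : overP I (cs I S)
    · refine add_lt_add_of_le_of_lt (sum_le_sum a) (sum_lt_sum b ?_)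
      simp only [done, e, Bool.not_false, Bool.true_and, List.all_eq_false, List.mem_range,
        Bool.not_eq_true', Bool.not_eq_false] at d
      obtain ⟨k, hk, c⟩ := d
      have := (r2 ((overP_iff S).1 e) _ hk ((bad_iff S _).1 c)).2.1
      exact ⟨k, mem_range.2 hk, by rw [step_v S hk, if_pos ⟨e, c⟩]; omega⟩
    · refine add_lt_add_of_lt_of_le (sum_lt_sum a ?_) (sum_le_sum b)
      have := mt (overP_iff (I := I) S).2 (by simp [e])
      push Not at this
      obtain ⟨p, hp, c⟩ := this
      obtain ⟨x, hx⟩ := card_pos.1 ((Nat.zero_le _).trans_lt c)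
      obtain ⟨x1, rfl⟩ := mem_filter.1 hx
      have := (mem_cur.1 x1).2.1
      simp only [ok, Bool.and_eq_true, decide_eq_true_eq] at this
      exact ⟨_, mem_range.2 hp, by rw [step_u S hp, if_pos c]; omega⟩

theorem gu_rep {n p : ℕ} (N : ℕ) (h : p < n) : gu (List.replicate n N) p = N := by
  simp [gu, List.getD_eq_getElem?_getD, h]

theorem sound (hI : Valid I) {M : Mt} (h : alg I = some M) : Good I M.toFinset := by
  have key : ∀ i, InvP I (gu ((step I)^[i] (init I)).1) (gu ((step I)^[i] (init I)).2) := by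
    intro i
    induction i with
    | zero => exact fun p hp => Or.inl (gu_rep _ hp)
    | succ i ih => rw [Function.iterate_succ_apply']; exact invP_step hI ih
  unfold alg out at h
  cases e : (done I (cs I (run I)) && _) <;> rw [e] at h
  · simp at h
  obtain rfl := Option.some.inj h
  rw [Bool.and_eq_true] at e
  obtain ⟨a, b, c⟩ := done_iff hI _ e.1
  refine final hI (key _) a b c fun k hk => ?_
  have := List.all_eq_true.1 e.2 k (List.mem_range.2 hk)
  change _ ∨ _ ≤ #(Ml I (cs I (run I)).toFinset k)
  simpa [gt', cl_eq] using this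

theorem complete (hI : Valid I) {G : Finset (ℕ × ℕ)} (hG : Good I G) : alg I ≠ none := by
  have key : ∀ i, Inv I G ((step I)^[i] (init I)) ∧ (done I (cs I ((step I)^[i] (init I))) = true ∨
      pot I ((step I)^[i] (init I)) + i ≤ (I.2.1.length + I.2.2.length) * NN I) := by
    intro i
    induction i with
    | zero =>
      refine ⟨⟨fun e he => ?_, fun k hk => Or.inl (gu_rep _ hk)⟩, Or.inr ?_⟩
      · have a := hG.1.acc e he
        have p1 := hI.pref_lt _ _ a
        simp [ok, init, gu_rep _ p1, gu_rep _ (hI.lec_lt _ p1), hI.r_lt a]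
      · simp only [pot, init, Function.iterate_zero, id]
        rw [sum_congr rfl fun p hp => gu_rep _ (mem_range.1 hp),
          sum_congr rfl fun p hp => gu_rep _ (mem_range.1 hp)]
        simp [add_mul]
    | succ i ih =>
      rw [Function.iterate_succ_apply']
      obtain ⟨a, b, c⟩ := inv_step hI hG ih.1
      refine ⟨a, ?_⟩
      cases e : done I (cs I ((step I)^[i] (init I)))
      · have := c e
        have := ih.2.resolve_left (by simp [e])
        exact Or.inr (by omega)
      · exact Or.inl (b e)
  obtain ⟨a, b⟩ := key ((I.2.1.length + I.2.2.length) * NN I + 1)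
  have d : done I (cs I (run I)) = true := b.resolve_right (by omega)
  obtain ⟨d1, d2, -⟩ := done_iff hI _ d
  have := rural hI hG a.1 d1 d2
  rw [alg, out, d, List.all_eq_true.2 fun k hk => ?_]
  · simp
  · rw [List.mem_range] at hk
    have : gu (run I).2 k = NN I ∨ (dcap I k).val ≤ #(Ml I (cs I (run I)).toFinset k) :=
      (a.2 k hk).imp_right fun e => ((this k hk).trans e).ge
    simpa [gt', cl_eq] using this

end Pool.Agent.H38.Spa
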