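import Pool.Agent.H38.NP.Defs

/-!
Student-project allocation with lower quotas of projects.
-/

set_option autoImplicit false

namespace Pool.Agent.H38.Spa

open Pool.Agent.H38.NP Finset

/-- An instance: the preference lists of the students (projects, best first); for each project its
lecturer, capacity and lower quota; for each lecturer the list of students (best first) and the
capacity. Students, projects and lecturers are numbered from `0`. -/
abbrev Inst := List (List ℕ) × List (ℕ × Bin × Bin) × List (List ℕ × Bin)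

variable (I : Inst)

/-- preference list of a student -/
def pref (s : ℕ) : List ℕ := I.1.getD s []
/-- lecturer of a project -/
def lec (p : ℕ) : ℕ := (I.2.1.getD p (0, ⟨0⟩, ⟨0⟩)).1
/-- capacity of a project -/
def cap (p : ℕ) : Bin := (I.2.1.getD p (0, ⟨0⟩, ⟨0⟩)).2.1
/-- lower quota of a project -/
def quo (p : ℕ) : Bin := (I.2.1.getD p (0, ⟨0⟩, ⟨0⟩)).2.2
/-- preference list of a lecturer -/
def rk (k : ℕ) : List ℕ := (I.2.2.getD k ([], ⟨0⟩)).1
/-- capacity of a lecturer -/
def dcap (k : ℕ) : Bin := (I.2.2.getD k ([], ⟨0⟩)).2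

/-- The lists are strict rankings of the right objects, and the capacities are as required. -/
structure Valid : Prop where
  pref_nodup : ∀ s, (pref I s).Nodup
  pref_lt : ∀ s, ∀ p ∈ pref I s, p < I.2.1.length
  lec_lt : ∀ p < I.2.1.length, lec I p < I.2.2.length
  offers : ∀ k < I.2.2.length, ∃ p < I.2.1.length, lec I p = k
  rk_nodup : ∀ k, (rk I k).Nodup
  mem_rk : ∀ k < I.2.2.length, ∀ s, s ∈ rk I k ↔ ∃ p ∈ pref I s, lec I p = k
  cap_le : ∀ p < I.2.1.length, (cap I p).val ≤ (dcap I (lec I p)).val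
  le_sum : ∀ k < I.2.2.length,
    (dcap I k).val ≤ ∑ p ∈ range I.2.1.length with lec I p = k, (cap I p).val

/-- the pairs of `M` with project `p` -/
def Mp (M : Finset (ℕ × ℕ)) (p : ℕ) : Finset (ℕ × ℕ) := {e ∈ M | e.2 = p}
/-- the pairs of `M` whose project is offered by `k` -/
def Ml (M : Finset (ℕ × ℕ)) (k : ℕ) : Finset (ℕ × ℕ) := {e ∈ M | lec I e.2 = k}

/-- `M` is a matching. -/
structure IsMatching (M : Finset (ℕ × ℕ)) : Prop where
  acc : ∀ e ∈ M, e.2 ∈ pref I e.1
  uniq : ∀ e ∈ M, ∀ e' ∈ M, e.1 = e'.1 → e = e'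
  capP : ∀ p < I.2.1.length, #(Mp M p) ≤ (cap I p).val
  capL : ∀ k < I.2.2.length, #(Ml I M k) ≤ (dcap I k).val

/-- The lecturer `k` prefers the student `s` to the student `t`. -/
def LPref (k s t : ℕ) : Prop := (rk I k).idxOf s < (rk I k).idxOf t

/-- The pair `(s, p)` blocks `M`. -/
def Blocks (M : Finset (ℕ × ℕ)) (s p : ℕ) : Prop :=
  (s, p) ∉ M ∧ p ∈ pref I s ∧
  (∀ p', (s, p') ∈ M → (pref I s).idxOf p < (pref I s).idxOf p') ∧
  ((#(Mp M p) < (cap I p).val ∧ #(Ml I M (lec I p)) < (dcap I (lec I p)).val) ∨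
   (#(Mp M p) < (cap I p).val ∧ #(Ml I M (lec I p)) = (dcap I (lec I p)).val ∧
     ((∃ e ∈ Ml I M (lec I p), e.1 = s) ∨ ∃ e ∈ Ml I M (lec I p), LPref I (lec I p) s e.1)) ∨
   (#(Mp M p) = (cap I p).val ∧ ∃ e ∈ Mp M p, LPref I (lec I p) s e.1))

/-- `M` is a stable matching that respects all lower quotas. -/
def Good (M : Finset (ℕ × ℕ)) : Prop :=
  IsMatching I M ∧ (∀ s p, ¬ Blocks I M s p) ∧ ∀ p < I.2.1.length, (quo I p).val ≤ #(Mp M p)

end Pool.Agent.H38.Spa
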