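import Pool.Agent.H38.Spa.Defs

/-!
The cut-off algorithm: correctness.
-/

set_option autoImplicit false

namespace Pool.Agent.H38.Spa

open Pool.Agent.H38.NP Finset

theorem find_iff (f : ℕ → Bool) (l : List ℕ) (p : ℕ) : l.find? f = some p ↔
    p ∈ l ∧ f p = true ∧ ∀ q ∈ l, l.idxOf q < l.idxOf p → f q = false := by
  induction l with
  | nil => simp
  | cons a l ih =>
    rw [List.find?_cons]
    cases h : f a
    · rw [ih]
      constructor
      · rintro ⟨h1, h2, h3⟩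
        have : a ≠ p := fun e => by simp [e, h2] at h
        refine ⟨List.mem_cons_of_mem _ h1, h2, fun q hq hh => ?_⟩
        by_cases e : a = q
        · exact e ▸ h
        · rw [List.idxOf_cons_ne _ e, List.idxOf_cons_ne _ this] at hh
          exact h3 q ((List.mem_cons.1 hq).resolve_left (Ne.symm e)) (by omega)
      · rintro ⟨h1, h2, h3⟩
        have : a ≠ p := fun e => by simp [e, h2] at h
        refine ⟨(List.mem_cons.1 h1).resolve_left (Ne.symm this), h2, fun q hq hh => ?_⟩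
        by_cases e : a = q
        · exact e ▸ h
        · exact h3 q (List.mem_cons_of_mem _ hq) (by
            rw [List.idxOf_cons_ne _ e, List.idxOf_cons_ne _ this]; omega)
    · simp only [Option.some.injEq]
      refine ⟨fun e => e ▸ ⟨List.mem_cons_self, h, by simp⟩, fun ⟨_, _, h3⟩ => ?_⟩
      by_contra e
      have := h3 a List.mem_cons_self (by rw [List.idxOf_cons_ne _ e]; simp)
      simp [h] at this

variable (I : Inst)

def r (s p : ℕ) : ℕ := (rk I (lec I p)).idxOf s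
def ok (u v : ℕ → ℕ) (s p : ℕ) : Bool := decide (r I s p < u p) && decide (r I s p < v (lec I p))
def cur (u v : ℕ → ℕ) : List (ℕ × ℕ) :=
  (List.range I.1.length).flatMap fun s => ((pref I s).find? (ok I u v s)).toList.map fun p => (s, p)
def NN : ℕ := (I.2.2.map fun x => x.1.length).sum

variable {I} {u v u' v' : ℕ → ℕ}

theorem mem_cur {e : ℕ × ℕ} : e ∈ (cur I u v).toFinset ↔ e.2 ∈ pref I e.1 ∧ ok I u v e.1 e.2 = true ∧
    ∀ q ∈ pref I e.1, (pref I e.1).idxOf q < (pref I e.1).idxOf e.2 → ok I u v e.1 q = false := by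
  rw [← find_iff]
  obtain ⟨s, p⟩ := e
  simp only [cur, List.mem_toFinset, List.mem_flatMap, List.mem_range, List.mem_map,
    Option.mem_toList, Prod.mk.injEq]
  refine ⟨fun ⟨_, _, _, h, e1, e2⟩ => e1 ▸ e2 ▸ h, fun h => ⟨s, ?_, p, h, rfl, rfl⟩⟩
  by_contra hh
  rw [pref, List.getD_eq_default _ _ (not_lt.1 hh)] at h
  simp at h

theorem idx_inj {l : List ℕ} {a b : ℕ} (ha : a ∈ l) (h : l.idxOf a = l.idxOf b) : a = b :=
  (List.idxOf_inj ha).1 h

theorem cur_uniq : ∀ e ∈ (cur I u v).toFinset, ∀ e' ∈ (cur I u v).toFinset, e.1 = e'.1 → e = e' := by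
  rintro ⟨s, p⟩ h ⟨s', p'⟩ h' rfl
  rw [mem_cur, ← find_iff] at h h'
  simp only at h h'
  rw [Option.some.inj (h.symm.trans h')]

theorem cur_nodup : (cur I u v).Nodup := by
  refine List.nodup_flatMap.2 ⟨fun s _ => ?_, List.nodup_range.imp fun {a b} h => ?_⟩
  · cases (pref I s).find? (ok I u v s) <;> simp
  · simp only [Function.onFun, List.disjoint_left, List.mem_map]
    rintro _ ⟨_, -, rfl⟩ ⟨_, -, e⟩
    exact h (Prod.mk.inj e).1.symm

theorem keep (hI : Valid I) (hu : ∀ p < I.2.1.length, u' p ≤ u p)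
    (hv : ∀ k < I.2.2.length, v' k ≤ v k) {e : ℕ × ℕ} (h : e ∈ (cur I u v).toFinset)
    (h' : ok I u' v' e.1 e.2 = true) : e ∈ (cur I u' v').toFinset := by
  rw [mem_cur] at h ⊢
  refine ⟨h.1, h', fun q hq hh => ?_⟩
  have := h.2.2 q hq hh
  have a := hu q (hI.pref_lt _ _ hq)
  have b := hv _ (hI.lec_lt q (hI.pref_lt _ _ hq))
  simp only [ok, Bool.and_eq_false_iff, decide_eq_false_iff_not] at this ⊢
  omega

theorem Valid.mem (hI : Valid I) {s p : ℕ} (h : p ∈ pref I s) : s ∈ rk I (lec I p) :=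
  (hI.mem_rk _ (hI.lec_lt p (hI.pref_lt _ _ h)) s).2 ⟨p, h, rfl⟩

theorem Valid.r_lt (hI : Valid I) {s p : ℕ} (h : p ∈ pref I s) : r I s p < NN I := by
  refine (List.idxOf_lt_length_of_mem (hI.mem h)).trans_le
    (List.single_le_sum (fun _ _ => Nat.zero_le _) _ (List.mem_map.2 ⟨_, ?_, rfl⟩))
  rw [List.getD_eq_getElem _ _ (hI.lec_lt p (hI.pref_lt _ _ h))]
  exact List.getElem_mem _

theorem fib (hI : Valid I) {M : Finset (ℕ × ℕ)} (h : ∀ e ∈ M, e.2 ∈ pref I e.1) (k : ℕ) :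
    #(Ml I M k) = ∑ p ∈ range I.2.1.length with lec I p = k, #(Mp M p) := by
  rw [card_eq_sum_card_fiberwise (f := Prod.snd) (t := {p ∈ range I.2.1.length | lec I p = k})]
  · refine sum_congr rfl fun p hp => congrArg card ?_
    ext e
    simp only [Ml, Mp, mem_filter] at hp ⊢
    exact ⟨fun h => ⟨h.1.1, h.2⟩, fun h => ⟨⟨h.1, h.2 ▸ hp.2⟩, h.2⟩⟩
  · intro e he
    simp only [Ml, coe_filter, mem_range, Set.mem_ofPred_eq] at he ⊢
    exact ⟨hI.pref_lt _ _ (h e he.1), he.2⟩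

section
variable (hI : Valid I) {G : Finset (ℕ × ℕ)} (hG : Good I G)
  (h1 : ∀ e ∈ G, ok I u v e.1 e.2 = true)
include hI hG h1

omit hI in
theorem noblock {s p : ℕ} (h : (s, p) ∈ (cur I u v).toFinset) (h' : (s, p) ∉ G) :
    ¬ ((#(Mp G p) < (cap I p).val ∧ #(Ml I G (lec I p)) < (dcap I (lec I p)).val) ∨
   (#(Mp G p) < (cap I p).val ∧ #(Ml I G (lec I p)) = (dcap I (lec I p)).val ∧
     ((∃ e ∈ Ml I G (lec I p), e.1 = s) ∨ ∃ e ∈ Ml I G (lec I p), LPref I (lec I p) s e.1)) ∨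
   (#(Mp G p) = (cap I p).val ∧ ∃ e ∈ Mp G p, LPref I (lec I p) s e.1)) := fun hh => by
  rw [mem_cur] at h
  refine hG.2.1 s p ⟨h', h.1, fun p' hp' => ?_, hh⟩
  have a := hG.1.acc _ hp'
  have b := mt (h.2.2 p' a) (by simp [h1 _ hp'])
  refine lt_of_le_of_ne (not_lt.1 b) fun e => h' ?_
  rwa [show p = p' from idx_inj h.1 e]

theorem rule1 {s p : ℕ} (h : (cap I p).val < #(Mp (cur I u v).toFinset p)) (hs : (s, p) ∈ G) :
    r I s p + 1 < u p := by
  have a := hG.1.acc _ hs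
  have p1 := hI.pref_lt _ _ a
  have c1 := hG.1.capP p p1
  have c2 := hG.1.capL _ (hI.lec_lt p p1)
  have m1 : (s, p) ∈ Mp G p := mem_filter.2 ⟨hs, rfl⟩
  obtain ⟨⟨t, p'⟩, ht, ht'⟩ := exists_mem_notMem_of_card_lt_card
    (s := (Mp G p).erase (s, p)) (t := (Mp (cur I u v).toFinset p).erase (s, p)) (by
      have := pred_card_le_card_erase (s := Mp (cur I u v).toFinset p) (a := (s, p))
      have := card_pos.2 ⟨_, m1⟩
      rw [card_erase_of_mem m1]; omega)
  simp only [Mp, mem_erase, mem_filter, not_and] at ht ht'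
  obtain ⟨h2, h3, rfl⟩ := ht
  have h4 := noblock hG h1 h3 fun hh => ht' h2 hh rfl
  rw [mem_cur] at h3
  have h5 : r I t p' < u p' := by have := h3.2.1; simp [ok] at this; exact this.1
  by_contra hh
  have h6 : LPref I (lec I p') t s := lt_of_le_of_ne (by unfold r at *; omega) fun e =>
    h2 (Prod.ext (idx_inj (hI.mem h3.1) e) rfl)
  refine h4 ?_
  rcases c1.lt_or_eq with c1 | c1
  · rcases c2.lt_or_eq with c2 | c2
    · exact Or.inl ⟨c1, c2⟩
    · exact Or.inr (Or.inl ⟨c1, c2, Or.inr ⟨_, mem_filter.2 ⟨hs, rfl⟩, h6⟩⟩)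
  · exact Or.inr (Or.inr ⟨c1, _, m1, h6⟩)

variable (h2 : ∀ p < I.2.1.length, #(Mp (cur I u v).toFinset p) ≤ (cap I p).val)
include h2

theorem under {p : ℕ} (hp : p < I.2.1.length) (h : #(Mp G p) < #(Mp (cur I u v).toFinset p)) :
    #(Ml I G (lec I p)) = (dcap I (lec I p)).val ∧ 0 < v (lec I p) ∧
      ∀ e ∈ G, lec I e.2 = lec I p → r I e.1 e.2 + 1 < v (lec I p) := by
  obtain ⟨⟨t, p'⟩, ht, ht'⟩ := exists_mem_notMem_of_card_lt_card h
  simp only [Mp, mem_filter, not_and] at ht ht'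
  obtain ⟨h3, rfl⟩ := ht
  have h4 := noblock hG h1 h3 fun hh => ht' hh rfl
  rw [mem_cur] at h3
  have h5 : r I t p' < v (lec I p') := by have := h3.2.1; simp [ok] at this; exact this.2
  have c1 := h.trans_le (h2 p' hp)
  have c2 := (hG.1.capL _ (hI.lec_lt p' hp)).eq_of_not_lt fun c => h4 (Or.inl ⟨c1, c⟩)
  refine ⟨c2, by omega, fun e he e1 => ?_⟩
  have m : e ∈ Ml I G (lec I p') := mem_filter.2 ⟨he, e1⟩
  have a : ¬ LPref I (lec I p') t e.1 := fun c => h4 (Or.inr (Or.inl ⟨c1, c2, Or.inr ⟨e, m, c⟩⟩))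
  have b : e.1 ≠ t := fun c => h4 (Or.inr (Or.inl ⟨c1, c2, Or.inl ⟨e, m, c⟩⟩))
  have := mt (idx_inj (a := t) (l := rk I (lec I p')) (b := e.1) (hI.mem h3.1)) b.symm
  unfold LPref r at *
  rw [e1]; omega

theorem rural (h3 : ∀ k < I.2.2.length, #(Ml I (cur I u v).toFinset k) ≤ (dcap I k).val) :
    ∀ k < I.2.2.length, #(Ml I (cur I u v).toFinset k) = #(Ml I G k) := by
  have acc : ∀ e ∈ (cur I u v).toFinset, e.2 ∈ pref I e.1 := fun e he => (mem_cur.1 he).1
  have a : ∀ k ∈ range I.2.2.length, #(Ml I (cur I u v).toFinset k) ≤ #(Ml I G k) := fun k hk => by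
    by_contra hh
    have := hh
    rw [fib hI acc, fib hI hG.1.acc, not_le] at this
    obtain ⟨p, hp, h⟩ := exists_lt_of_sum_lt this
    simp only [mem_filter, mem_range] at hp hk
    have := (under hI hG h1 h2 hp.1 h).1
    rw [hp.2] at this
    exact hh (this ▸ h3 k hk)
  have s : ∀ M : Finset (ℕ × ℕ), (∀ e ∈ M, e.2 ∈ pref I e.1) →
      #M = ∑ k ∈ range I.2.2.length, #(Ml I M k) := fun M hM =>
    card_eq_sum_card_fiberwise (f := fun e : ℕ × ℕ => lec I e.2) fun e he =>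
      mem_coe.2 (mem_range.2 (hI.lec_lt _ (hI.pref_lt _ _ (hM e he))))
  have b : #G ≤ #(cur I u v).toFinset := by
    rw [← card_image_of_injOn (f := Prod.fst) fun e he e' he' => hG.1.uniq e he e' he']
    refine (card_le_card fun s hs => ?_).trans (card_image_le (f := Prod.fst))
    obtain ⟨e, he, rfl⟩ := mem_image.1 hs
    obtain ⟨p, hp⟩ := Option.isSome_iff_exists.1
      (List.find?_isSome.2 ⟨e.2, hG.1.acc e he, h1 e he⟩)
    exact mem_image.2 ⟨(e.1, p), mem_cur.2 ((find_iff _ _ _).1 hp), rfl⟩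
  rw [s _ acc, s _ hG.1.acc] at b
  exact fun k hk => (sum_eq_sum_iff_of_le a).1 (le_antisymm (sum_le_sum a) b) k (mem_range.2 hk)

theorem rule2 {k : ℕ} (hk : k < I.2.2.length)
    (h : (dcap I k).val < #(Ml I (cur I u v).toFinset k) ∨
      ((∀ k < I.2.2.length, #(Ml I (cur I u v).toFinset k) ≤ (dcap I k).val) ∧
        ∃ p < I.2.1.length, lec I p = k ∧ #(Mp (cur I u v).toFinset p) < (quo I p).val)) :
    #(Ml I G k) = (dcap I k).val ∧ 0 < v k ∧ ∀ e ∈ G, lec I e.2 = k → r I e.1 e.2 + 1 < v k := by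
  have acc : ∀ e ∈ (cur I u v).toFinset, e.2 ∈ pref I e.1 := fun e he => (mem_cur.1 he).1
  obtain ⟨p, hp, h⟩ : ∃ p ∈ ({p ∈ range I.2.1.length | lec I p = k} : Finset ℕ),
      #(Mp G p) < #(Mp (cur I u v).toFinset p) := by
    rcases h with h | ⟨h3, p, hp, e, h⟩
    · refine exists_lt_of_sum_lt ?_
      rw [← fib hI acc, ← fib hI hG.1.acc]
      exact (hG.1.capL k hk).trans_lt h
    · by_contra hh
      push Not at hh
      have := sum_lt_sum hh ⟨p, by simp [hp, e], h.trans_le (hG.2.2 p hp)⟩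
      rw [← fib hI acc, ← fib hI hG.1.acc, rural hI hG h1 h2 h3 k hk] at this
      exact lt_irrefl _ this
  simp only [mem_filter, mem_range] at hp
  exact hp.2 ▸ under hI hG h1 h2 hp.1 h

end

/-- The invariant for projects. -/
def InvP (I : Inst) (u v : ℕ → ℕ) : Prop := ∀ p < I.2.1.length,
  u p = NN I ∨ v (lec I p) ≤ u p ∨ (cap I p).val ≤ #(Mp (cur I u v).toFinset p)

theorem final (hI : Valid I) (h1 : InvP I u v)
    (h2 : ∀ p < I.2.1.length, #(Mp (cur I u v).toFinset p) ≤ (cap I p).val)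
    (h3 : ∀ k < I.2.2.length, #(Ml I (cur I u v).toFinset k) ≤ (dcap I k).val)
    (h4 : ∀ p < I.2.1.length, (quo I p).val ≤ #(Mp (cur I u v).toFinset p))
    (h5 : ∀ k < I.2.2.length, v k = NN I ∨ (dcap I k).val ≤ #(Ml I (cur I u v).toFinset k)) :
    Good I (cur I u v).toFinset := by
  refine ⟨⟨fun e he => (mem_cur.1 he).1, cur_uniq, h2, h3⟩, fun s p ⟨b1, b2, b3, b4⟩ => ?_, h4⟩
  have p1 := hI.pref_lt _ _ b2
  have nok : ok I u v s p = false := by
    by_contra hh
    obtain ⟨q, hq⟩ := Option.isSome_iff_exists.1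
      (List.find?_isSome.2 ⟨p, b2, (Bool.not_eq_false _).mp hh⟩)
    have := (find_iff _ _ _).1 hq
    exact hh (this.2.2 p b2 (b3 q (mem_cur.2 this)))
  have rl := hI.r_lt b2
  have k1 : ∀ e ∈ Mp (cur I u v).toFinset p, r I e.1 p < u p ∧ r I e.1 p < v (lec I p) :=
    fun e he => by
      obtain ⟨a, rfl⟩ := mem_filter.1 he
      simpa [ok] using (mem_cur.1 a).2.1
  have k2 : ∀ e ∈ Ml I (cur I u v).toFinset (lec I p), r I e.1 p < v (lec I p) := fun e he => by
    obtain ⟨a, b⟩ := mem_filter.1 he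
    have := (mem_cur.1 a).2.1
    simp only [ok, r, b, Bool.and_eq_true, decide_eq_true_eq] at this
    exact this.2
  simp only [ok, Bool.and_eq_false_iff, decide_eq_false_iff_not] at nok
  have c1 := h1 p p1
  have c2 := h5 _ (hI.lec_lt p p1)
  rcases b4 with b | ⟨b, b', ⟨e, he, rfl⟩ | ⟨e, he, h⟩⟩ | ⟨b, e, he, h⟩
  · omega
  · have := k2 e he; omega
  · have := k2 e he; unfold LPref r at *; omega
  · have := k1 e he; unfold LPref r at *; omega

theorem invP_u (hI : Valid I) (h1 : InvP I u v) (hv : ∀ k < I.2.2.length, v' k = v k)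
    (hu : ∀ p < I.2.1.length, u' p = u p ∨
      (u' p = u p - 1 ∧ (cap I p).val < #(Mp (cur I u v).toFinset p))) : InvP I u' v' := by
  intro p hp
  have kp : ∀ e ∈ Mp (cur I u v).toFinset p, r I e.1 p < u' p → e ∈ Mp (cur I u' v').toFinset p :=
    fun e he h => by
      obtain ⟨a, rfl⟩ := mem_filter.1 he
      refine mem_filter.2 ⟨keep hI (fun p hp => by rcases hu p hp with h | h <;> omega)
        (fun k hk => (hv k hk).le) a ?_, rfl⟩
      have := (mem_cur.1 a).2.1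
      simp only [ok, Bool.and_eq_true, decide_eq_true_eq, hv _ (hI.lec_lt _ hp)] at this ⊢
      exact ⟨h, this.2⟩
  have k1 : ∀ e ∈ Mp (cur I u v).toFinset p, r I e.1 p < u p := fun e he => by
    obtain ⟨a, rfl⟩ := mem_filter.1 he
    have := (mem_cur.1 a).2.1
    simp only [ok, Bool.and_eq_true, decide_eq_true_eq] at this
    exact this.1
  rcases hu p hp with e | ⟨e, h⟩
  · rw [e, hv _ (hI.lec_lt _ hp)]
    exact (h1 p hp).imp_right fun h => h.imp_right fun h =>
      h.trans (card_le_card fun x hx => kp x hx (e ▸ k1 x hx))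
  · refine Or.inr (Or.inr ?_)
    have a := card_filter_add_card_filter_not (s := Mp (cur I u v).toFinset p)
      fun x => r I x.1 p < u' p
    have b : #{x ∈ Mp (cur I u v).toFinset p | r I x.1 p < u' p} ≤ #(Mp (cur I u' v').toFinset p) :=
      card_le_card fun x hx => kp x (mem_filter.1 hx).1 (mem_filter.1 hx).2
    have c : #{x ∈ Mp (cur I u v).toFinset p | ¬ r I x.1 p < u' p} ≤ 1 :=
      card_le_one.2 fun x hx y hy => by
        obtain ⟨x1, x2⟩ := mem_filter.1 hx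
        obtain ⟨y1, y2⟩ := mem_filter.1 hy
        have := k1 x x1
        have := k1 y y1
        obtain ⟨x3, x4⟩ := mem_filter.1 x1
        obtain ⟨y3, y4⟩ := mem_filter.1 y1
        exact Prod.ext (idx_inj (l := rk I (lec I p)) (x4 ▸ hI.mem (mem_cur.1 x3).1)
          (by unfold r at *; omega)) (x4.trans y4.symm)
    omega

theorem invP_v (hI : Valid I) (h1 : InvP I u v) (hv : ∀ k < I.2.2.length, v' k ≤ v k)
    (hu : ∀ p < I.2.1.length, u' p = u p) : InvP I u' v' := by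
  intro p hp
  have := hv _ (hI.lec_lt _ hp)
  rw [hu p hp]
  rcases le_or_gt (v' (lec I p)) (u p) with c | c
  · exact Or.inr (Or.inl c)
  refine (h1 p hp).imp_right fun h => Or.inr ((h.resolve_left (by omega)).trans
    (card_le_card fun e he => ?_))
  obtain ⟨a, rfl⟩ := mem_filter.1 he
  refine mem_filter.2 ⟨keep hI (fun p hp => (hu p hp).le) hv a ?_, rfl⟩
  have := (mem_cur.1 a).2.1
  simp only [ok, Bool.and_eq_true, decide_eq_true_eq, hu _ hp] at this ⊢
  omega

end Pool.Agent.H38.Spa
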